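import Pool.Agent.Helper10.FS.Trace
import Pool.Agent.Helper38.FS.Defs

/-!
# Project FS (MP_75608d_al), TRACE for the lazy walks on injective tuples

`trace_two`: if the lazy walks with generators `(z, y0)` and `(z, y1)` both have a large average
return probability on injective `r`-tuples (`rp`), then the two words
`y⁻¹ g_{2N-1} y g_{2N-2} ⋯ y⁻¹ g_1 y g_0`, `y = y0, y1`, with independent `g_i` of law
`lazyLaw z (2 j)`, fix independent uniform injective `r`-tuples simultaneously with large
probability.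
-/

set_option linter.unusedVariables false
set_option linter.unusedSectionVars false

namespace Pool.Agent.Helper10.FS

open Matrix Finset Equiv
open Pool.Agent.Helper3.AK (Alt lazyLaw)
open Pool.Agent.Helper38.FS (rp)
open Pool.Agent.Helper96.FS (pre sg)

variable {X : Type} [Fintype X] [DecidableEq X] {n r K : ℕ}

/-- the alternating signs: `y` after `g_0, g_2, …`, `y⁻¹` after `g_1, g_3, …` -/
def eps (i : ℕ) : Bool := decide (i % 2 = 0)

/-- probability that a uniform injective `r`-tuple is fixed -/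
noncomputable def pf (r : ℕ) (u : Perm (Fin n)) : ℝ :=
  ((Finset.univ.filter fun x => u x = x).card.descFactorial r : ℝ) / (n.descFactorial r : ℝ)

/-- the action on injective tuples -/
def emb (n r : ℕ) : Perm (Fin n) →* Perm (Fin r ↪ Fin n) where
  toFun g :=
    { toFun := fun a => a.trans g.toEmbedding
      invFun := fun a => a.trans (g⁻¹).toEmbedding
      left_inv := fun a => by ext i; simp
      right_inv := fun a => by ext i; simp }
  map_one' := rfl
  map_mul' _ _ := rfl

theorem emb_apply (g : Perm (Fin n)) (a : Fin r ↪ Fin n) (i : Fin r) :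
    emb n r g a i = g (a i) := rfl

theorem fx_emb (g : Perm (Fin n)) :
    fx (emb n r g) = (Finset.univ.filter fun x => g x = x).card.descFactorial r := by
  classical
  have e : {a : Fin r ↪ Fin n // emb n r g a = a} ≃ (Fin r ↪ {x : Fin n // g x = x}) :=
    { toFun := fun a => ⟨fun i => ⟨a.1 i, by
          have := congrArg (fun b : Fin r ↪ Fin n => b i) a.2
          exact this⟩, fun i j h => a.1.injective (congrArg Subtype.val h)⟩
      invFun := fun b => ⟨b.trans (Function.Embedding.subtype _), by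
          ext i
          rw [emb_apply]
          exact congrArg Fin.val (b i).2⟩
      left_inv := fun a => by
          apply Subtype.ext
          ext i
          rfl
      right_inv := fun b => by
          ext i
          rfl }
  rw [fx, ← Fintype.card_subtype, Fintype.card_congr e, Fintype.card_embedding_eq,
    Fintype.card_fin, Fintype.card_subtype]

theorem Lp_snoc (a : Fin K → Perm X) (Y : Perm X) :
    Lp (Fin.snoc (α := fun _ => Perm X) a Y) = Lp (Fin.cons Y a : Fin (K + 1) → Perm X) := by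
  rw [Lp, Lp, Fin.sum_univ_castSucc, Fin.sum_univ_succ]
  simp only [Fin.snoc_castSucc, Fin.snoc_last, Fin.cons_zero, Fin.cons_succ]
  rw [add_comm (pm Y + pm Y⁻¹)]

/-- the operator of the lazy law is the power of the lazy operator -/
theorem lazy_rep (z : Fin K → Alt n) (φ : Perm (Fin n) →* Perm X) (m : ℕ) :
    ∑ g, lazyLaw z m g • pm (φ g) = Lp (fun i => φ (z i : Perm (Fin n))) ^ m := by
  induction m with
  | zero =>
    simp only [lazyLaw, pow_zero]
    rw [Finset.sum_eq_single 1]
    · rw [if_pos rfl, one_smul, map_one, pm_one]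
    · intro g _ hg
      rw [if_neg hg, zero_smul]
    · intro h
      exact absurd (Finset.mem_univ _) h
  | succ m ih =>
    rw [pow_succ, ← ih]
    have h1 : ∀ h : Perm (Fin n), ∑ g, lazyLaw z m (g * h⁻¹) • pm (φ g) =
        (∑ g, lazyLaw z m g • pm (φ g)) * pm (φ h) := by
      intro h
      rw [← Equiv.sum_comp (Equiv.mulRight h), Finset.sum_mul]
      refine Finset.sum_congr rfl fun g _ => ?_
      rw [Equiv.coe_mulRight, mul_inv_cancel_right, Matrix.smul_mul, pm_mul, map_mul]
    have h2 : ∀ h : Perm (Fin n), ∑ g, lazyLaw z m (g * h) • pm (φ g) =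
        (∑ g, lazyLaw z m g • pm (φ g)) * pm (φ h)⁻¹ := by
      intro h
      have := h1 h⁻¹
      rw [inv_inv, map_inv] at this
      exact this
    have h3 : ∑ g, lazyLaw z (m + 1) g • pm (φ g) =
        (1 / 2 : ℝ) • (∑ g, lazyLaw z m g • pm (φ g)) + (4 * (K : ℝ))⁻¹ •
          ∑ i, ((∑ g, lazyLaw z m (g * (z i : Perm (Fin n))⁻¹) • pm (φ g)) +
            ∑ g, lazyLaw z m (g * (z i : Perm (Fin n))) • pm (φ g)) := by
      simp only [lazyLaw, add_smul, mul_smul, Finset.sum_smul]
      rw [Finset.sum_add_distrib, ← Finset.smul_sum, ← Finset.smul_sum, Finset.sum_comm]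
      congr 2
      refine Finset.sum_congr rfl fun i _ => ?_
      rw [← Finset.sum_add_distrib]
    rw [h3, Lp, Matrix.mul_add, Matrix.mul_smul, Matrix.mul_one, Matrix.mul_smul, Finset.mul_sum]
    congr 2
    refine Finset.sum_congr rfl fun i _ => ?_
    rw [h1, h2, Matrix.mul_add]

/-- the lazy operator is a polynomial in the simple one -/
theorem Lp_aeval (a : Fin K → Perm X) (j : ℕ) :
    Polynomial.aeval (Wp a) (((Polynomial.C (1 / 2 : ℝ)) * (1 + Polynomial.X)) ^ j) =
      Lp a ^ j := by
  rw [map_pow, map_mul, Polynomial.aeval_C, map_add, map_one, Polynomial.aeval_X]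
  congr 1
  rw [Lp, Wp, Algebra.algebraMap_eq_smul_one, smul_mul_assoc, one_mul, smul_add, smul_smul]
  congr 2
  rw [mul_inv, mul_inv]
  ring

theorem trace_Lp (z : Fin K → Alt n) (t : ℕ) :
    (Lp (fun i => emb n r (z i : Perm (Fin n))) ^ t).trace = n.descFactorial r * rp z t r := by
  rw [← lazy_rep, Matrix.trace_sum, rp, Finset.mul_sum]
  refine Finset.sum_congr rfl fun g _ => ?_
  rw [Matrix.trace_smul, trace_pm, fx_emb, smul_eq_mul]
  by_cases h : (n.descFactorial r : ℝ) = 0
  · have h0 : r > n := by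
      have : n.descFactorial r = 0 := by exact_mod_cast h
      exact Nat.descFactorial_eq_zero_iff_lt.1 this
    have h1 : (Finset.univ.filter fun x => g x = x).card.descFactorial r = 0 := by
      apply Nat.descFactorial_eq_zero_iff_lt.2
      refine lt_of_le_of_lt (Finset.card_le_univ _) ?_
      rw [Fintype.card_fin]
      exact h0
    rw [h1]
    simp
  · field_simp

theorem wd_eq_pre (y : Perm (Fin n)) (T : ℕ) (g : Fin T → Perm (Fin n)) :
    wd y T g = pre eps y T g := by
  induction T with
  | zero => rfl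
  | succ T ih =>
    have h : (if T % 2 = 1 then y⁻¹ else y) = sg (eps T) y := by
      rw [sg, eps]
      by_cases h : T % 2 = 1
      · have h' : ¬ T % 2 = 0 := by omega
        simp [h]
      · have h' : T % 2 = 0 := by omega
        simp [h']
    rw [wd, pre, ih, h]
    rfl

/-- **TRACE**: two systems of generators with the same old part -/
theorem trace_two (n r K t N j : ℕ) (hK : 1 ≤ K) (hr : r ≤ n) (z : Fin K → Alt n) (y0 y1 : Alt n)
    (θ η : ℝ) (h0 : 0 < θ) (h1 : θ ≤ 1) (hη0 : 0 ≤ η) (hη1 : η ≤ 1)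
    (hs : Real.sqrt (8 * (K + 1) * η) + 2 * Real.sqrt (4 * η / θ) ≤ 1)
    (R0 : (1 - η) ^ t ≤ rp (Fin.snoc (α := fun _ => Alt n) z y0) t r)
    (R1 : (1 - η) ^ t ≤ rp (Fin.snoc (α := fun _ => Alt n) z y1) t r) :
    (rp (Fin.snoc (α := fun _ => Alt n) z y0) t r - (1 - η) ^ t) *
      (rp (Fin.snoc (α := fun _ => Alt n) z y1) t r - (1 - η) ^ t) *
      (1 - θ) ^ (4 * j * N) *
      (1 - Real.sqrt (8 * (K + 1) * η) - 2 * Real.sqrt (4 * η / θ)) ^ (2 * N) ≤
      ∑ g : Fin (2 * N) → Perm (Fin n), (∏ i, lazyLaw z (2 * j) (g i)) *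
        (pf r (pre eps (y0 : Perm (Fin n)) (2 * N) g) *
          pf r (pre eps (y1 : Perm (Fin n)) (2 * N) g)) := by
  have hD : (0 : ℝ) < n.descFactorial r := by
    have := Nat.descFactorial_pos.2 hr
    exact_mod_cast this
  set D : ℝ := (n.descFactorial r : ℝ) with hDdef
  have hcard : (Fintype.card (Fin r ↪ Fin n) : ℝ) = D := by
    rw [Fintype.card_embedding_eq, Fintype.card_fin, Fintype.card_fin]
  -- the lazy operators with the new letter
  have hL : ∀ y : Alt n, (Lp (Fin.cons (emb n r (y : Perm (Fin n)))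
      (fun i => emb n r (z i : Perm (Fin n))) : Fin (K + 1) → Perm (Fin r ↪ Fin n)) ^ t).trace =
      D * rp (Fin.snoc (α := fun _ => Alt n) z y) t r := by
    intro y
    rw [← Lp_snoc, ← trace_Lp]
    congr 3
    funext i
    refine Fin.lastCases ?_ (fun i => ?_) i
    · simp only [Fin.snoc_last]
    · simp only [Fin.snoc_castSucc]
  set q : Polynomial ℝ := ((Polynomial.C (1 / 2 : ℝ)) * (1 + Polynomial.X)) ^ j with hq
  have hc : ∀ l : ℝ, 1 - 2 * θ ≤ l → l ≤ 1 → (1 - θ) ^ (2 * j) ≤ q.eval l ^ 2 := by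
    intro l hl hl'
    rw [hq, Polynomial.eval_pow, Polynomial.eval_mul, Polynomial.eval_C, Polynomial.eval_add,
      Polynomial.eval_one, Polynomial.eval_X, ← pow_mul, mul_comm 2 j]
    exact pow_le_pow_left₀ (by linarith) (by linarith) _
  have hs' : Real.sqrt (8 * (K + 1) * η) + 2 * Real.sqrt (8 * η / (2 * θ)) ≤ 1 := by
    have : 8 * η / (2 * θ) = 4 * η / θ := by
      field_simp
      ring
    rw [this]
    exact hs
  have main := trace_pairs hK (fun i => emb n r (z i : Perm (Fin n)))
    (emb n r (y0 : Perm (Fin n))) (emb n r (y1 : Perm (Fin n))) t N (2 * θ) η ((1 - θ) ^ (2 * j))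
    (by linarith) hη0 hη1 (pow_nonneg (by linarith) _) q hc hs'
    (by rw [hL, hcard, mul_comm]; exact mul_le_mul_of_nonneg_left R0 hD.le)
    (by rw [hL, hcard, mul_comm]; exact mul_le_mul_of_nonneg_left R1 hD.le)
  -- the word expansion
  let φ2 : Perm (Fin n) →* Perm ((Fin r ↪ Fin n) × (Fin r ↪ Fin n)) :=
    { toFun := fun g => pp (emb n r g) (emb n r g)
      map_one' := rfl
      map_mul' := fun g h => by rw [map_mul, pp_mul] }
  have hA : Polynomial.aeval (Wp (fun k => pp (emb n r (z k : Perm (Fin n)))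
      (emb n r (z k : Perm (Fin n))))) q * Polynomial.aeval (Wp (fun k =>
      pp (emb n r (z k : Perm (Fin n))) (emb n r (z k : Perm (Fin n))))) q =
      ∑ g, lazyLaw z (2 * j) g • pm (pp (emb n r g) (emb n r g)) := by
    have h := lazy_rep z φ2 (2 * j)
    have h' := Lp_aeval (fun k => pp (emb n r (z k : Perm (Fin n)))
      (emb n r (z k : Perm (Fin n)))) j
    rw [← hq] at h'
    rw [h', ← pow_add, ← two_mul]
    exact h.symm
  rw [trace_alt (emb n r) (lazyLaw z (2 * j)) (y0 : Perm (Fin n)) (y1 : Perm (Fin n)) _ hA N]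
    at main
  rw [hL, hL, hcard] at main
  have e1 : (8 : ℝ) * η / (2 * θ) = 4 * η / θ := by
    field_simp
    ring
  rw [e1, ← pow_mul] at main
  have e2 : 2 * j * (2 * N) = 4 * j * N := by ring
  rw [e2] at main
  have e3 : ∑ g : Fin (2 * N) → Perm (Fin n), (∏ i, lazyLaw z (2 * j) (g i)) *
        (fx (emb n r (wd (y0 : Perm (Fin n)) (2 * N) g)) *
          fx (emb n r (wd (y1 : Perm (Fin n)) (2 * N) g)) : ℝ) =
      D ^ 2 * ∑ g : Fin (2 * N) → Perm (Fin n), (∏ i, lazyLaw z (2 * j) (g i)) *
        (pf r (pre eps (y0 : Perm (Fin n)) (2 * N) g) *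
          pf r (pre eps (y1 : Perm (Fin n)) (2 * N) g)) := by
    rw [Finset.mul_sum]
    refine Finset.sum_congr rfl fun g _ => ?_
    rw [fx_emb, fx_emb, wd_eq_pre, wd_eq_pre, pf, pf, ← hDdef]
    field_simp
  rw [e3] at main
  have e4 : (D * rp (Fin.snoc (α := fun _ => Alt n) z y0) t r - (1 - η) ^ t * D) *
      (D * rp (Fin.snoc (α := fun _ => Alt n) z y1) t r - (1 - η) ^ t * D) *
      (1 - θ) ^ (4 * j * N) *
      (1 - Real.sqrt (8 * (K + 1) * η) - 2 * Real.sqrt (4 * η / θ)) ^ (2 * N) =
      D ^ 2 * ((rp (Fin.snoc (α := fun _ => Alt n) z y0) t r - (1 - η) ^ t) *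
      (rp (Fin.snoc (α := fun _ => Alt n) z y1) t r - (1 - η) ^ t) *
      (1 - θ) ^ (4 * j * N) *
      (1 - Real.sqrt (8 * (K + 1) * η) - 2 * Real.sqrt (4 * η / θ)) ^ (2 * N)) := by
    ring
  rw [e4] at main
  exact le_of_mul_le_mul_left main (by positivity)

end Pool.Agent.Helper10.FS
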