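import Mathlib

/-!
# Project FS (MP_75608d_al), TRACE, part 1: linear algebra of real symmetric matrices

Powers of positive semidefinite matrices: Jensen, monotonicity of the trace of a power, lower
bound of the trace by an orthonormal family of nearly invariant vectors.
-/

set_option linter.unusedVariables false
set_option linter.unusedSectionVars false

namespace Pool.Agent.Helper10.FS

open Matrix Finset

variable {I : Type} [Fintype I] [DecidableEq I]

/-- the quadratic form -/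
noncomputable def qf (C : Matrix I I ℝ) (v : I → ℝ) : ℝ := v ⬝ᵥ (C *ᵥ v)

/-- spectral theorem for a real symmetric matrix -/
theorem spec (C : Matrix I I ℝ) (hC : C.IsHermitian) :
    ∃ (U : Matrix I I ℝ) (d : I → ℝ), Uᵀ * U = 1 ∧ U * Uᵀ = 1 ∧ C = U * diagonal d * Uᵀ := by
  refine ⟨hC.eigenvectorUnitary, hC.eigenvalues, ?_, ?_, ?_⟩
  · have := (Matrix.mem_unitaryGroup_iff' (A := (hC.eigenvectorUnitary : Matrix I I ℝ))).1
      hC.eigenvectorUnitary.2
    simpa [star_eq_conjTranspose, conjTranspose_eq_transpose_of_trivial] using this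
  · have := (Matrix.mem_unitaryGroup_iff (A := (hC.eigenvectorUnitary : Matrix I I ℝ))).1
      hC.eigenvectorUnitary.2
    simpa [star_eq_conjTranspose, conjTranspose_eq_transpose_of_trivial] using this
  · have := hC.spectral_theorem
    simpa [Unitary.conjStarAlgAut_apply, star_eq_conjTranspose,
      conjTranspose_eq_transpose_of_trivial] using this

theorem qf_udu (U : Matrix I I ℝ) (d : I → ℝ) (v : I → ℝ) :
    qf (U * diagonal d * Uᵀ) v = ∑ i, d i * (Uᵀ *ᵥ v) i ^ 2 := by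
  have h1 : (U * diagonal d * Uᵀ) *ᵥ v = U *ᵥ (diagonal d *ᵥ (Uᵀ *ᵥ v)) := by
    rw [Matrix.mulVec_mulVec, Matrix.mulVec_mulVec, Matrix.mul_assoc]
  rw [qf, h1, Matrix.dotProduct_mulVec, ← Matrix.mulVec_transpose]
  simp only [dotProduct, Matrix.mulVec_diagonal]
  exact Finset.sum_congr rfl fun i _ => by ring

theorem norm_ut {U : Matrix I I ℝ} (h : U * Uᵀ = 1) (v : I → ℝ) :
    ∑ i, (Uᵀ *ᵥ v) i ^ 2 = v ⬝ᵥ v := by
  have h1 : ∑ i, (Uᵀ *ᵥ v) i ^ 2 = (Uᵀ *ᵥ v) ⬝ᵥ (Uᵀ *ᵥ v) := by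
    simp only [dotProduct, pow_two]
  rw [h1, Matrix.dotProduct_mulVec, ← Matrix.mulVec_transpose, Matrix.transpose_transpose,
    Matrix.mulVec_mulVec, h, Matrix.one_mulVec]

theorem pow_udu {U : Matrix I I ℝ} (h : Uᵀ * U = 1) (h' : U * Uᵀ = 1) (d : I → ℝ) (N : ℕ) :
    (U * diagonal d * Uᵀ) ^ N = U * diagonal (fun i => d i ^ N) * Uᵀ := by
  induction N with
  | zero => simp [h']
  | succ N ih =>
    rw [pow_succ, ih]
    have : U * diagonal (fun i => d i ^ N) * Uᵀ * (U * diagonal d * Uᵀ) =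
        U * diagonal (fun i => d i ^ N) * (Uᵀ * U) * diagonal d * Uᵀ := by
      simp only [Matrix.mul_assoc]
    rw [this, h, Matrix.mul_one, Matrix.mul_assoc U, Matrix.diagonal_mul_diagonal]
    simp only [pow_succ]

theorem trace_udu {U : Matrix I I ℝ} (h : Uᵀ * U = 1) (d : I → ℝ) :
    (U * diagonal d * Uᵀ).trace = ∑ i, d i := by
  rw [Matrix.mul_assoc, Matrix.trace_mul_comm, Matrix.mul_assoc, h, Matrix.mul_one,
    Matrix.trace_diagonal]

/-- the columns of `U` -/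
noncomputable def col (U : Matrix I I ℝ) (i : I) : I → ℝ := fun x => U x i

theorem ut_col {U : Matrix I I ℝ} (h : Uᵀ * U = 1) (i : I) :
    Uᵀ *ᵥ col U i = fun j => if j = i then 1 else 0 := by
  ext j
  have := congrFun (congrFun h j) i
  simpa [Matrix.mul_apply, Matrix.mulVec, dotProduct, col, Matrix.one_apply] using this

theorem col_col {U : Matrix I I ℝ} (h : Uᵀ * U = 1) (i j : I) :
    col U i ⬝ᵥ col U j = if i = j then 1 else 0 := by
  have := congrFun (congrFun h i) j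
  simpa [Matrix.mul_apply, dotProduct, col, Matrix.one_apply] using this

theorem qf_col {U : Matrix I I ℝ} (h : Uᵀ * U = 1) (d : I → ℝ) (i : I) :
    qf (U * diagonal d * Uᵀ) (col U i) = d i := by
  rw [qf_udu, ut_col h]
  rw [Finset.sum_eq_single i]
  · simp
  · intro j _ hj
    simp [hj]
  · intro hi
    exact absurd (Finset.mem_univ i) hi

/-- symmetric positive semidefinite -/
def Psd (C : Matrix I I ℝ) : Prop := Cᵀ = C ∧ ∀ v, 0 ≤ qf C v

theorem herm_of_sym {C : Matrix I I ℝ} (h : Cᵀ = C) : C.IsHermitian := by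
  rw [Matrix.IsHermitian, Matrix.conjTranspose_eq_transpose_of_trivial, h]

/-- spectral decomposition of a positive semidefinite matrix -/
theorem spec_psd {C : Matrix I I ℝ} (hC : Psd C) :
    ∃ (U : Matrix I I ℝ) (d : I → ℝ), Uᵀ * U = 1 ∧ U * Uᵀ = 1 ∧ C = U * diagonal d * Uᵀ ∧
      ∀ i, 0 ≤ d i := by
  obtain ⟨U, d, h1, h2, h3⟩ := spec C (herm_of_sym hC.1)
  refine ⟨U, d, h1, h2, h3, fun i => ?_⟩
  have := hC.2 (col U i)
  rwa [h3, qf_col h1] at this

/-- Jensen for the powers of a positive semidefinite matrix -/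
theorem jensen {C : Matrix I I ℝ} (hC : Psd C) (v : I → ℝ) (hv : v ⬝ᵥ v = 1) (N : ℕ) :
    qf C v ^ N ≤ qf (C ^ N) v := by
  obtain ⟨U, d, h1, h2, h3, h4⟩ := spec_psd hC
  rw [h3, pow_udu h1 h2, qf_udu, qf_udu]
  have := Real.pow_arith_mean_le_arith_mean_pow Finset.univ (fun i => (Uᵀ *ᵥ v) i ^ 2) d
    (fun i _ => sq_nonneg _) (by rw [norm_ut h2, hv]) (fun i _ => h4 i) N
  calc (∑ i, d i * (Uᵀ *ᵥ v) i ^ 2) ^ N = (∑ i, (Uᵀ *ᵥ v) i ^ 2 * d i) ^ N := by
        congr 1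
        exact Finset.sum_congr rfl fun i _ => mul_comm _ _
    _ ≤ ∑ i, (Uᵀ *ᵥ v) i ^ 2 * d i ^ N := this
    _ = _ := Finset.sum_congr rfl fun i _ => mul_comm _ _

/-- Bessel for an orthonormal family -/
theorem bessel {ι : Type} [Fintype ι] [DecidableEq ι] (f : ι → I → ℝ)
    (hf : ∀ i j, f i ⬝ᵥ f j = if i = j then 1 else 0) (u : I → ℝ) :
    ∑ i, (f i ⬝ᵥ u) ^ 2 ≤ u ⬝ᵥ u := by
  set w : I → ℝ := ∑ i, (f i ⬝ᵥ u) • f i with hw
  have h1 : w ⬝ᵥ u = ∑ i, (f i ⬝ᵥ u) ^ 2 := by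
    rw [hw, sum_dotProduct]
    exact Finset.sum_congr rfl fun i _ => by rw [smul_dotProduct, smul_eq_mul, pow_two]
  have h2 : w ⬝ᵥ w = ∑ i, (f i ⬝ᵥ u) ^ 2 := by
    conv_lhs => rw [hw, sum_dotProduct]
    refine Finset.sum_congr rfl fun i _ => ?_
    rw [smul_dotProduct, smul_eq_mul, dotProduct_sum,
      Finset.sum_eq_single i]
    · rw [dotProduct_smul, hf i i]
      simp [pow_two]
    · intro j _ hj
      rw [dotProduct_smul, hf i j]
      simp [Ne.symm hj]
    · intro hi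
      exact absurd (Finset.mem_univ i) hi
  have h3 : 0 ≤ (u - w) ⬝ᵥ (u - w) := by
    simp only [dotProduct]
    exact Finset.sum_nonneg fun i _ => mul_self_nonneg _
  have h4 : (u - w) ⬝ᵥ (u - w) = u ⬝ᵥ u - 2 * (w ⬝ᵥ u) + w ⬝ᵥ w := by
    rw [sub_dotProduct, dotProduct_sub, dotProduct_sub,
      dotProduct_comm u w]
    ring
  rw [h4, h1, h2] at h3
  linarith

/-- the trace dominates the sum over an orthonormal family -/
theorem trace_ge {C : Matrix I I ℝ} (hC : Psd C) {ι : Type} [Fintype ι] [DecidableEq ι]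
    (f : ι → I → ℝ) (hf : ∀ i j, f i ⬝ᵥ f j = if i = j then 1 else 0) :
    ∑ i, qf C (f i) ≤ C.trace := by
  obtain ⟨U, d, h1, h2, h3, h4⟩ := spec_psd hC
  rw [h3, trace_udu h1]
  have : ∀ i, qf (U * diagonal d * Uᵀ) (f i) = ∑ j, d j * (f i ⬝ᵥ col U j) ^ 2 := by
    intro i
    rw [qf_udu]
    refine Finset.sum_congr rfl fun j _ => ?_
    congr 2
    simp only [Matrix.mulVec, dotProduct, col, Matrix.transpose_apply]
    exact Finset.sum_congr rfl fun x _ => mul_comm _ _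
  rw [Finset.sum_congr rfl fun i _ => this i, Finset.sum_comm]
  refine Finset.sum_le_sum fun j _ => ?_
  rw [← Finset.mul_sum]
  have hb := bessel f hf (col U j)
  rw [col_col h1 j j, if_pos rfl] at hb
  nlinarith [h4 j]

/-- the trace is computed in the basis of eigenvectors of another matrix -/
theorem trace_pow_mono {C C' : Matrix I I ℝ} (hC : Psd C) (hC' : Psd C')
    (hle : ∀ v, qf C' v ≤ qf C v) (N : ℕ) : (C' ^ N).trace ≤ (C ^ N).trace := by
  obtain ⟨U, d, h1, h2, h3, h4⟩ := spec_psd hC'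
  have hCN : Psd (C ^ N) := by
    obtain ⟨U, d, h1, h2, h3, h4⟩ := spec_psd hC
    refine ⟨by rw [Matrix.transpose_pow, hC.1], fun v => ?_⟩
    rw [h3, pow_udu h1 h2, qf_udu]
    exact Finset.sum_nonneg fun i _ => mul_nonneg (pow_nonneg (h4 i) N) (sq_nonneg _)
  calc (C' ^ N).trace = ∑ i, d i ^ N := by rw [h3, pow_udu h1 h2, trace_udu h1]
    _ ≤ ∑ i, qf (C ^ N) (col U i) := by
        refine Finset.sum_le_sum fun i _ => ?_
        have e1 : col U i ⬝ᵥ col U i = 1 := by rw [col_col h1, if_pos rfl]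
        have e2 : qf C' (col U i) = d i := by rw [h3, qf_col h1]
        calc d i ^ N ≤ qf C (col U i) ^ N :=
              pow_le_pow_left₀ (h4 i) (by rw [← e2]; exact hle _) N
          _ ≤ qf (C ^ N) (col U i) := jensen hC _ e1 N
    _ ≤ (C ^ N).trace := trace_ge hCN (col U) (fun i j => col_col h1 i j)

theorem sym3 {A B : Matrix I I ℝ} (hA : Aᵀ = A) (hB : Bᵀ = B) : (A * B * A)ᵀ = A * B * A := by
  rw [Matrix.transpose_mul, Matrix.transpose_mul, hA, hB, Matrix.mul_assoc]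

theorem psd_pow {C : Matrix I I ℝ} (hC : Psd C) (N : ℕ) : Psd (C ^ N) := by
  obtain ⟨U, d, h1, h2, h3, h4⟩ := spec_psd hC
  refine ⟨by rw [Matrix.transpose_pow, hC.1], fun v => ?_⟩
  rw [h3, pow_udu h1 h2, qf_udu]
  exact Finset.sum_nonneg fun i _ => mul_nonneg (pow_nonneg (h4 i) N) (sq_nonneg _)

theorem trace_pow_cyc (A B : Matrix I I ℝ) (N : ℕ) :
    ((A * B) ^ N).trace = ((B * A) ^ N).trace := by
  cases N with
  | zero => simp
  | succ N =>
    rw [pow_succ (A * B), ← Matrix.mul_assoc, mul_pow_mul, Matrix.mul_assoc,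
      Matrix.trace_mul_comm, Matrix.mul_assoc, ← pow_succ]

theorem qf_conj (A B : Matrix I I ℝ) (v : I → ℝ) : qf (Aᵀ * B * A) v = qf B (A *ᵥ v) := by
  rw [qf, qf, ← Matrix.mulVec_mulVec, ← Matrix.mulVec_mulVec, Matrix.dotProduct_mulVec,
    ← Matrix.mulVec_transpose, Matrix.transpose_transpose]

theorem qf_smul (c : ℝ) (A : Matrix I I ℝ) (v : I → ℝ) : qf (c • A) v = c * qf A v := by
  rw [qf, qf, Matrix.smul_mulVec, dotProduct_smul, smul_eq_mul]

theorem qf_one (v : I → ℝ) : qf (1 : Matrix I I ℝ) v = v ⬝ᵥ v := by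
  rw [qf, Matrix.one_mulVec]

theorem qf_add (A B : Matrix I I ℝ) (v : I → ℝ) : qf (A + B) v = qf A v + qf B v := by
  rw [qf, qf, qf, Matrix.add_mulVec, dotProduct_add]

theorem qf_sum {ι : Type} (s : Finset ι) (A : ι → Matrix I I ℝ) (v : I → ℝ) :
    qf (∑ i ∈ s, A i) v = ∑ i ∈ s, qf (A i) v := by
  rw [qf, Matrix.sum_mulVec, dotProduct_sum]
  rfl

/-- Euclidean norm -/
noncomputable def nrm (v : I → ℝ) : ℝ := Real.sqrt (v ⬝ᵥ v)

theorem dot_self_nonneg (v : I → ℝ) : 0 ≤ v ⬝ᵥ v := by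
  simp only [dotProduct]
  exact Finset.sum_nonneg fun i _ => mul_self_nonneg _

theorem nrm_nonneg (v : I → ℝ) : 0 ≤ nrm v := Real.sqrt_nonneg _

theorem nrm_sq (v : I → ℝ) : nrm v ^ 2 = v ⬝ᵥ v := Real.sq_sqrt (dot_self_nonneg v)

theorem dot_le (u v : I → ℝ) : u ⬝ᵥ v ≤ nrm u * nrm v := by
  have h : (u ⬝ᵥ v) ^ 2 ≤ (u ⬝ᵥ u) * (v ⬝ᵥ v) := by
    have := Finset.sum_mul_sq_le_sq_mul_sq Finset.univ u v
    simpa only [dotProduct, pow_two] using this
  have h2 : (u ⬝ᵥ v) ^ 2 ≤ (nrm u * nrm v) ^ 2 := by rw [mul_pow, nrm_sq, nrm_sq]; exact h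
  exact le_trans (le_abs_self _) (abs_le_of_sq_le_sq h2 (mul_nonneg (nrm_nonneg u) (nrm_nonneg v)))

theorem nrm_add (u v : I → ℝ) : nrm (u + v) ≤ nrm u + nrm v := by
  have h : (u + v) ⬝ᵥ (u + v) = u ⬝ᵥ u + 2 * (u ⬝ᵥ v) + v ⬝ᵥ v := by
    rw [add_dotProduct, dotProduct_add, dotProduct_add, dotProduct_comm v u]
    ring
  apply Real.sqrt_le_iff.2
  refine ⟨add_nonneg (nrm_nonneg u) (nrm_nonneg v), ?_⟩
  rw [h]
  nlinarith [dot_le u v, nrm_sq u, nrm_sq v]

theorem nrm_sub_ge (u v : I → ℝ) : nrm u - nrm (u - v) ≤ nrm v := by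
  have := nrm_add (u - v) v
  rw [sub_add_cancel] at this
  linarith

theorem aeval_udu {U : Matrix I I ℝ} (h : Uᵀ * U = 1) (h' : U * Uᵀ = 1) (d : I → ℝ)
    (q : Polynomial ℝ) :
    Polynomial.aeval (U * diagonal d * Uᵀ) q = U * diagonal (fun i => q.eval (d i)) * Uᵀ := by
  induction q using Polynomial.induction_on' with
  | add p r hp hr =>
    rw [map_add, hp, hr, ← Matrix.add_mul, ← Matrix.mul_add, Matrix.diagonal_add]
    simp only [Polynomial.eval_add]
  | monomial n a =>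
    rw [Polynomial.aeval_monomial, pow_udu h h', ← Algebra.smul_def, ← Matrix.smul_mul,
      ← Matrix.mul_smul, ← Matrix.diagonal_smul]
    congr 3
    ext i
    simp [Polynomial.eval_monomial]

/-- spectral projection of a symmetric matrix to the eigenvalues at least `1 - θ` -/
theorem proj {P : Matrix I I ℝ} (hP : Pᵀ = P) (hP1 : ∀ v, qf P v ≤ v ⬝ᵥ v) {θ : ℝ} (h0 : 0 < θ) :
    ∃ Q : Matrix I I ℝ, Qᵀ = Q ∧ Q * Q = Q ∧ (∀ v, qf Q v ≤ v ⬝ᵥ v) ∧
      (∀ (q : Polynomial ℝ) (c : ℝ), 0 ≤ c → (∀ l : ℝ, 1 - θ ≤ l → l ≤ 1 → c ≤ q.eval l ^ 2) →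
        ∀ v, c * qf Q v ≤ qf (Polynomial.aeval P q * Polynomial.aeval P q) v) ∧
      ∀ v, θ * (v ⬝ᵥ v - qf Q v) ≤ v ⬝ᵥ v - qf P v := by
  classical
  obtain ⟨U, d, u1, u2, u3⟩ := spec P (herm_of_sym hP)
  have d1 : ∀ i, d i ≤ 1 := by
    intro i
    have := hP1 (col U i)
    rw [col_col u1, if_pos rfl, u3, qf_col u1] at this
    exact this
  set e : I → ℝ := fun i => if 1 - θ ≤ d i then 1 else 0 with he
  refine ⟨U * diagonal e * Uᵀ, ?_, ?_, ?_, ?_, ?_⟩
  · rw [Matrix.transpose_mul, Matrix.transpose_mul, Matrix.transpose_transpose,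
      Matrix.diagonal_transpose, Matrix.mul_assoc]
  · have := pow_udu u1 u2 e 2
    rw [pow_two] at this
    rw [this]
    congr 3
    ext i
    simp only [he]
    split <;> norm_num
  · intro v
    rw [qf_udu, ← norm_ut u2 v]
    refine Finset.sum_le_sum fun i _ => ?_
    simp only [he]
    split
    · rw [one_mul]
    · rw [zero_mul]; exact sq_nonneg _
  · intro q c hc hq v
    have hsq : Polynomial.aeval P q * Polynomial.aeval P q =
        U * diagonal (fun i => q.eval (d i) ^ 2) * Uᵀ := by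
      have := pow_udu u1 u2 (fun i => q.eval (d i)) 2
      rw [pow_two, ← aeval_udu u1 u2, ← u3] at this
      exact this
    rw [hsq, qf_udu, qf_udu, Finset.mul_sum]
    refine Finset.sum_le_sum fun i _ => ?_
    simp only [he]
    split
    · rename_i h
      rw [one_mul]
      exact mul_le_mul_of_nonneg_right (hq _ h (d1 i)) (sq_nonneg _)
    · rw [zero_mul, mul_zero]
      exact mul_nonneg (sq_nonneg _) (sq_nonneg _)
  · intro v
    rw [qf_udu, u3, qf_udu, ← norm_ut u2 v, ← Finset.sum_sub_distrib, ← Finset.sum_sub_distrib,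
      Finset.mul_sum]
    refine Finset.sum_le_sum fun i _ => ?_
    simp only [he]
    split
    · have := mul_nonneg (sub_nonneg.2 (d1 i)) (sq_nonneg ((Uᵀ *ᵥ v) i))
      nlinarith
    · rename_i h
      push Not at h
      nlinarith [mul_le_mul_of_nonneg_right (show θ ≤ 1 - d i by linarith)
        (sq_nonneg ((Uᵀ *ᵥ v) i))]

/-- an orthonormal family of almost invariant vectors, as many as the trace of a power tells -/
theorem fam {P : Matrix I I ℝ} (hP : Psd P) (hP1 : ∀ v, qf P v ≤ v ⬝ᵥ v) {η : ℝ} (h0 : 0 ≤ η)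
    (h1 : η ≤ 1) (t : ℕ) : ∃ (d : ℕ) (f : Fin d → I → ℝ),
      (∀ i j, f i ⬝ᵥ f j = if i = j then 1 else 0) ∧ (∀ i, 1 - η ≤ qf P (f i)) ∧
      (P ^ t).trace ≤ d + (1 - η) ^ t * Fintype.card I := by
  classical
  obtain ⟨U, d, u1, u2, u3, u4⟩ := spec_psd hP
  have d1 : ∀ i, d i ≤ 1 := by
    intro i
    have := hP1 (col U i)
    rw [col_col u1, if_pos rfl, u3, qf_col u1] at this
    exact this
  set S : Finset I := Finset.univ.filter (fun i => 1 - η ≤ d i) with hS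
  let e : Fin S.card ≃ S := (Finset.equivFin S).symm
  refine ⟨S.card, fun i => col U (e i), ?_, ?_, ?_⟩
  · intro i j
    rw [col_col u1]
    by_cases h : i = j
    · rw [if_pos h, if_pos (by rw [h])]
    · rw [if_neg h, if_neg]
      intro h'
      exact h (e.injective (Subtype.ext h'))
  · intro i
    rw [u3, qf_col u1]
    exact (Finset.mem_filter.1 (e i).2).2
  · rw [u3, pow_udu u1 u2, trace_udu u1]
    have hc : ∀ i, d i ^ t ≤ (if i ∈ S then 1 else 0) + (1 - η) ^ t := by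
      intro i
      by_cases h : i ∈ S
      · rw [if_pos h]
        have := pow_le_one₀ (n := t) (u4 i) (d1 i)
        have h2 : 0 ≤ (1 - η) ^ t := pow_nonneg (by linarith) t
        linarith
      · rw [if_neg h, zero_add]
        have : d i < 1 - η := by
          by_contra h'
          push Not at h'
          exact h (by rw [hS, Finset.mem_filter]; exact ⟨Finset.mem_univ i, h'⟩)
        exact pow_le_pow_left₀ (u4 i) this.le t
    calc ∑ i, d i ^ t ≤ ∑ i, ((if i ∈ S then (1 : ℝ) else 0) + (1 - η) ^ t) :=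
          Finset.sum_le_sum fun i _ => hc i
      _ = S.card + (1 - η) ^ t * Fintype.card I := by
          rw [Finset.sum_add_distrib, Finset.sum_ite_mem, Finset.univ_inter, Finset.sum_const,
            Finset.sum_const, Finset.card_univ]
          simp only [nsmul_eq_mul, mul_one]
          ring

theorem aeval_transpose {P : Matrix I I ℝ} (hP : Pᵀ = P) (q : Polynomial ℝ) :
    (Polynomial.aeval P q)ᵀ = Polynomial.aeval P q := by
  obtain ⟨U, d, u1, u2, u3⟩ := spec P (herm_of_sym hP)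
  rw [u3, aeval_udu u1 u2, Matrix.transpose_mul, Matrix.transpose_mul,
    Matrix.transpose_transpose, Matrix.diagonal_transpose, Matrix.mul_assoc]

/-- lower bound of the trace of the alternating word; `A = q(P)²` -/
theorem trace_lower {P Y : Matrix I I ℝ} (hP : Pᵀ = P) (hP1 : ∀ v, qf P v ≤ v ⬝ᵥ v)
    (hY : Yᵀ * Y = 1) (hY' : Y * Yᵀ = 1) {ι : Type} [Fintype ι] [DecidableEq ι]
    (f : ι → I → ℝ) (hf : ∀ i j, f i ⬝ᵥ f j = if i = j then 1 else 0) {θ κ δ c : ℝ} (h0 : 0 < θ)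
    (hκ : 0 ≤ κ) (hδ : 0 ≤ δ) (hc0 : 0 ≤ c) (q : Polynomial ℝ)
    (hq : ∀ l : ℝ, 1 - θ ≤ l → l ≤ 1 → c ≤ q.eval l ^ 2) (fP : ∀ i, 1 - κ ≤ qf P (f i))
    (fY : ∀ i, nrm (Y *ᵥ f i - f i) ≤ δ) (h2 : δ + 2 * Real.sqrt (κ / θ) ≤ 1) (N : ℕ) :
    (Fintype.card ι : ℝ) * c ^ (2 * N) *
      (1 - δ - 2 * Real.sqrt (κ / θ)) ^ (2 * N) ≤
      ((Yᵀ * (Polynomial.aeval P q * Polynomial.aeval P q) * Y *
        (Polynomial.aeval P q * Polynomial.aeval P q)) ^ N).trace := by
  obtain ⟨Q, q1, q2, q3, q4, q5⟩ := proj hP hP1 h0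
  set a : Matrix I I ℝ := Polynomial.aeval P q with ha
  have hat : aᵀ = a := aeval_transpose hP q
  have q4' : ∀ v, c * qf Q v ≤ qf (a * a) v := q4 q c hc0 hq
  set B : Matrix I I ℝ := Yᵀ * (a * a) * Y with hB
  set B' : Matrix I I ℝ := Yᵀ * Q * Y with hB'
  have aat : (a * a)ᵀ = a * a := by rw [Matrix.transpose_mul, hat]
  have qaa : ∀ v, 0 ≤ qf (a * a) v := by
    intro v
    have h := qf_conj a 1 v
    rw [Matrix.mul_one, hat, qf_one] at h
    rw [h]
    exact dot_self_nonneg _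
  have qQ : ∀ v, 0 ≤ qf Q v := by
    intro v
    have : qf Q v = (Q *ᵥ v) ⬝ᵥ (Q *ᵥ v) := by
      have h := qf_conj Q 1 v
      rw [Matrix.mul_one, q1, q2, qf_one] at h
      exact h
    rw [this]
    exact dot_self_nonneg _
  have bt : B'ᵀ = B' := by
    rw [hB', Matrix.transpose_mul, Matrix.transpose_mul, Matrix.transpose_transpose, q1,
      Matrix.mul_assoc]
  have bb : B' * B' = B' := by
    have : B' * B' = Yᵀ * Q * (Y * Yᵀ) * Q * Y := by rw [hB']; simp only [Matrix.mul_assoc]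
    rw [this, hY', Matrix.mul_one, Matrix.mul_assoc Yᵀ, q2]
  have Bt : Bᵀ = B := by
    rw [hB, Matrix.transpose_mul, Matrix.transpose_mul, Matrix.transpose_transpose, aat]
    simp only [Matrix.mul_assoc]
  have e1 : ((B * (a * a)) ^ N).trace = ((a * B * a) ^ N).trace := by
    rw [← Matrix.mul_assoc, trace_pow_cyc, ← Matrix.mul_assoc]
  have e2 : c ^ N * ((a * B' * a) ^ N).trace ≤ ((a * B * a) ^ N).trace := by
    have h : ((c • (a * B' * a)) ^ N).trace = c ^ N * ((a * B' * a) ^ N).trace := by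
      rw [smul_pow, Matrix.trace_smul, smul_eq_mul]
    rw [← h]
    have qc1 : ∀ v, qf (a * B * a) v = qf (a * a) (Y *ᵥ (a *ᵥ v)) := by
      intro v
      have h := qf_conj a B v
      rw [hat] at h
      rw [h, hB, qf_conj]
    have qc2 : ∀ v, qf (a * B' * a) v = qf Q (Y *ᵥ (a *ᵥ v)) := by
      intro v
      have h := qf_conj a B' v
      rw [hat] at h
      rw [h, hB', qf_conj]
    refine trace_pow_mono ⟨?_, fun v => ?_⟩ ⟨?_, fun v => ?_⟩ (fun v => ?_) N
    · exact sym3 hat Bt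
    · rw [qc1]; exact qaa _
    · rw [Matrix.transpose_smul, sym3 hat bt]
    · rw [qf_smul, qc2]; exact mul_nonneg hc0 (qQ _)
    · rw [qf_smul, qc1, qc2]; exact q4' _
  have e3 : ((a * B' * a) ^ N).trace = ((B' * (a * a) * B') ^ N).trace := by
    have h1 : a * B' * a = (a * B') * (B' * a) := by
      calc a * B' * a = a * (B' * B') * a := by rw [bb]
        _ = _ := by simp only [Matrix.mul_assoc]
    rw [h1, trace_pow_cyc]
    congr 2
    simp only [Matrix.mul_assoc]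
  have e4 : c ^ N * ((B' * Q * B') ^ N).trace ≤ ((B' * (a * a) * B') ^ N).trace := by
    have h : ((c • (B' * Q * B')) ^ N).trace = c ^ N * ((B' * Q * B') ^ N).trace := by
      rw [smul_pow, Matrix.trace_smul, smul_eq_mul]
    rw [← h]
    have qc1 : ∀ v, qf (B' * (a * a) * B') v = qf (a * a) (B' *ᵥ v) := by
      intro v
      have h := qf_conj B' (a * a) v
      rwa [bt] at h
    have qc2 : ∀ v, qf (B' * Q * B') v = qf Q (B' *ᵥ v) := by
      intro v
      have h := qf_conj B' Q v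
      rwa [bt] at h
    refine trace_pow_mono ⟨?_, fun v => ?_⟩ ⟨?_, fun v => ?_⟩ (fun v => ?_) N
    · exact sym3 bt aat
    · rw [qc1]; exact qaa _
    · rw [Matrix.transpose_smul, sym3 bt q1]
    · rw [qf_smul, qc2]; exact mul_nonneg hc0 (qQ _)
    · rw [qf_smul, qc1, qc2]; exact q4' _
  have e5 : ((B' * Q * B') ^ N).trace = ((Q * B' * Q) ^ N).trace := by
    have h1 : B' * Q * B' = (B' * Q) * (Q * B') := by
      calc B' * Q * B' = B' * (Q * Q) * B' := by rw [q2]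
        _ = _ := by simp only [Matrix.mul_assoc]
    have h2 : Q * B' * Q = (Q * B') * (B' * Q) := by
      calc Q * B' * Q = Q * (B' * B') * Q := by rw [bb]
        _ = _ := by simp only [Matrix.mul_assoc]
    rw [h1, h2, trace_pow_cyc]
  have qc3 : ∀ v, qf (Q * B' * Q) v = nrm (Q *ᵥ (Y *ᵥ (Q *ᵥ v))) ^ 2 := by
    intro v
    have h := qf_conj Q B' v
    rw [q1] at h
    rw [h, hB', qf_conj, nrm_sq]
    have h' := qf_conj Q 1 (Y *ᵥ (Q *ᵥ v))
    rw [Matrix.mul_one, q1, q2, qf_one] at h'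
    exact h'
  have hpsd : Psd (Q * B' * Q) := by
    refine ⟨?_, fun v => by rw [qc3]; exact sq_nonneg _⟩
    exact sym3 q1 bt
  -- contraction properties
  have cQ : ∀ v, nrm (Q *ᵥ v) ≤ nrm v := by
    intro v
    apply Real.sqrt_le_sqrt
    have h' := qf_conj Q 1 v
    rw [Matrix.mul_one, q1, q2, qf_one] at h'
    rw [← h']
    exact q3 v
  have cY : ∀ v, nrm (Y *ᵥ v) = nrm v := by
    intro v
    have h' := qf_conj Y 1 v
    rw [Matrix.mul_one, hY, qf_one, qf_one] at h'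
    rw [nrm, nrm, h']
  have key : ∀ i, 1 - δ - 2 * Real.sqrt (κ / θ) ≤ nrm (Q *ᵥ (Y *ᵥ (Q *ᵥ f i))) := by
    intro i
    have n1 : nrm (f i) = 1 := by rw [nrm, hf, if_pos rfl, Real.sqrt_one]
    have n2 : nrm (f i - Q *ᵥ f i) ≤ Real.sqrt (κ / θ) := by
      apply Real.sqrt_le_sqrt
      have h' := qf_conj Q 1 (f i)
      rw [Matrix.mul_one, q1, q2, qf_one] at h'
      have h3 : (f i - Q *ᵥ f i) ⬝ᵥ (f i - Q *ᵥ f i) = f i ⬝ᵥ f i - qf Q (f i) := by
        rw [sub_dotProduct, dotProduct_sub, dotProduct_sub, ← h',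
          dotProduct_comm (Q *ᵥ f i) (f i)]
        simp only [qf]
        ring
      rw [h3, le_div_iff₀ h0]
      have := q5 (f i)
      have h4 := fP i
      rw [hf, if_pos rfl] at this ⊢
      nlinarith
    have n3 : 1 - Real.sqrt (κ / θ) ≤ nrm (Q *ᵥ f i) := by
      have := nrm_sub_ge (f i) (Q *ᵥ f i)
      rw [n1] at this
      linarith
    have n4 : nrm (Q *ᵥ f i) - δ ≤ nrm (Q *ᵥ (Y *ᵥ f i)) := by
      have := nrm_sub_ge (Q *ᵥ f i) (Q *ᵥ (Y *ᵥ f i))
      have h5 : nrm (Q *ᵥ f i - Q *ᵥ (Y *ᵥ f i)) ≤ δ := by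
        rw [← Matrix.mulVec_sub]
        refine le_trans (cQ _) ?_
        have h6 : nrm (f i - Y *ᵥ f i) = nrm (Y *ᵥ f i - f i) := by
          rw [nrm, nrm, ← neg_sub (Y *ᵥ f i) (f i), neg_dotProduct, dotProduct_neg, neg_neg]
        rw [h6]
        exact fY i
      linarith
    have n5 : nrm (Q *ᵥ (Y *ᵥ f i)) - Real.sqrt (κ / θ) ≤ nrm (Q *ᵥ (Y *ᵥ (Q *ᵥ f i))) := by
      have := nrm_sub_ge (Q *ᵥ (Y *ᵥ f i)) (Q *ᵥ (Y *ᵥ (Q *ᵥ f i)))
      have h5 : nrm (Q *ᵥ (Y *ᵥ f i) - Q *ᵥ (Y *ᵥ (Q *ᵥ f i))) ≤ Real.sqrt (κ / θ) := by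
        rw [← Matrix.mulVec_sub, ← Matrix.mulVec_sub]
        refine le_trans (cQ _) ?_
        rw [cY]
        exact n2
      linarith
    linarith
  have e6 : (Fintype.card ι : ℝ) * (1 - δ - 2 * Real.sqrt (κ / θ)) ^ (2 * N) ≤
      ((Q * B' * Q) ^ N).trace := by
    calc (Fintype.card ι : ℝ) * (1 - δ - 2 * Real.sqrt (κ / θ)) ^ (2 * N)
        = ∑ i : ι, (1 - δ - 2 * Real.sqrt (κ / θ)) ^ (2 * N) := by
          rw [Finset.sum_const, Finset.card_univ, nsmul_eq_mul]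
      _ ≤ ∑ i, qf ((Q * B' * Q) ^ N) (f i) := by
          refine Finset.sum_le_sum fun i _ => ?_
          refine le_trans ?_ (jensen hpsd (f i) (by rw [hf, if_pos rfl]) N)
          rw [qc3, ← pow_mul]
          exact pow_le_pow_left₀ (by linarith) (key i) _
      _ ≤ _ := trace_ge (psd_pow hpsd N) f hf
  calc (Fintype.card ι : ℝ) * c ^ (2 * N) *
      (1 - δ - 2 * Real.sqrt (κ / θ)) ^ (2 * N) = c ^ N * (c ^ N *
        ((Fintype.card ι : ℝ) * (1 - δ - 2 * Real.sqrt (κ / θ)) ^ (2 * N))) := by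
        rw [two_mul N, pow_add c]
        ring
    _ ≤ c ^ N * (c ^ N * ((Q * B' * Q) ^ N).trace) := by
        apply mul_le_mul_of_nonneg_left _ (pow_nonneg hc0 N)
        exact mul_le_mul_of_nonneg_left e6 (pow_nonneg hc0 N)
    _ ≤ c ^ N * ((B' * (a * a) * B') ^ N).trace := by
        apply mul_le_mul_of_nonneg_left _ (pow_nonneg hc0 N)
        rw [← e5]
        exact e4
    _ ≤ ((B * (a * a)) ^ N).trace := by
        rw [e1, ← e3]
        exact e2

end Pool.Agent.Helper10.FS
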