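import Pool.Agent.Helper10.FS.Lin

/-!
# Project FS (MP_75608d_al), TRACE: two systems of generators with a common old part

`G` a finite group acting on a finite set `X` by `φ : G →* Perm X`, `z : Fin K → G`, `y0, y1 : G`.
If the lazy walks of `(z, y0)` and of `(z, y1)` both have a large average return probability on
`X`, then `W(y0)` and `W(y1)` have many fixed points on `X` simultaneously, for the words
`W(y) = y⁻¹ g_{2N-1} y g_{2N-2} ⋯ y⁻¹ g_1 y g_0` with independent `g_i` distributed as the lazy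
walk of `z`.
-/

set_option linter.unusedVariables false
set_option linter.unusedSectionVars false

namespace Pool.Agent.Helper10.FS

open Matrix Finset Equiv

variable {X : Type} [Fintype X] [DecidableEq X]

/-- permutation matrix -/
def pm (σ : Perm X) : Matrix X X ℝ := fun x y => if x = σ y then 1 else 0

/-- number of fixed points -/
def fx (σ : Perm X) : ℕ := (Finset.univ.filter fun x => σ x = x).card

theorem pm_mulVec (σ : Perm X) (v : X → ℝ) : pm σ *ᵥ v = fun x => v (σ⁻¹ x) := by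
  ext x
  simp only [Matrix.mulVec, dotProduct, pm]
  rw [Finset.sum_eq_single (σ⁻¹ x)]
  · simp
  · intro y _ hy
    rw [if_neg, zero_mul]
    rintro rfl
    exact hy (by simp)
  · intro h
    exact absurd (Finset.mem_univ _) h

theorem pm_mul (σ τ : Perm X) : pm σ * pm τ = pm (σ * τ) := by
  ext x y
  simp only [Matrix.mul_apply, pm]
  rw [Finset.sum_eq_single (τ y)]
  · rw [if_pos rfl, mul_one, Perm.mul_apply]
  · intro z _ hz
    rw [if_neg hz, mul_zero]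
  · intro h
    exact absurd (Finset.mem_univ _) h

theorem pm_one : pm (1 : Perm X) = 1 := by
  ext x y
  rw [Matrix.one_apply]
  rfl

theorem pm_transpose (σ : Perm X) : (pm σ)ᵀ = pm σ⁻¹ := by
  ext x y
  simp only [Matrix.transpose_apply, pm]
  congr 1
  rw [eq_iff_iff]
  constructor
  · rintro rfl; simp
  · rintro rfl; simp

theorem trace_pm (σ : Perm X) : (pm σ).trace = fx σ := by
  simp only [Matrix.trace, Matrix.diag_apply, pm, fx]
  rw [Finset.sum_boole]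
  congr 2
  ext x
  simp [eq_comm]

theorem dot_pm (σ : Perm X) (v : X → ℝ) : (pm σ *ᵥ v) ⬝ᵥ (pm σ *ᵥ v) = v ⬝ᵥ v := by
  have h := qf_conj (pm σ) 1 v
  rw [Matrix.mul_one, pm_transpose, pm_mul, inv_mul_cancel, pm_one, qf_one, qf_one] at h
  exact h.symm

theorem nrm_pm_sub (σ : Perm X) (v : X → ℝ) :
    nrm (pm σ *ᵥ v - v) ^ 2 = 2 * (v ⬝ᵥ v - qf (pm σ) v) := by
  rw [nrm_sq, sub_dotProduct, dotProduct_sub, dotProduct_sub, dot_pm,
    dotProduct_comm (pm σ *ᵥ v) v]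
  simp only [qf]
  ring

theorem qf_pm_le (σ : Perm X) (v : X → ℝ) : qf (pm σ) v ≤ v ⬝ᵥ v := by
  have := nrm_pm_sub σ v
  have h2 := sq_nonneg (nrm (pm σ *ᵥ v - v))
  linarith

theorem qf_pm_ge (σ : Perm X) (v : X → ℝ) : - (v ⬝ᵥ v) ≤ qf (pm σ) v := by
  have h : (pm σ *ᵥ v + v) ⬝ᵥ (pm σ *ᵥ v + v) = 2 * (v ⬝ᵥ v + qf (pm σ) v) := by
    rw [add_dotProduct, dotProduct_add, dotProduct_add, dot_pm,
      dotProduct_comm (pm σ *ᵥ v) v]
    simp only [qf]
    ring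
  have := dot_self_nonneg (pm σ *ᵥ v + v)
  linarith

theorem qf_transpose {I : Type} [Fintype I] [DecidableEq I] (A : Matrix I I ℝ) (v : I → ℝ) :
    qf Aᵀ v = qf A v := by
  rw [qf, qf, Matrix.mulVec_transpose, dotProduct_comm, ← Matrix.dotProduct_mulVec]

theorem qf_pm_inv (σ : Perm X) (v : X → ℝ) : qf (pm σ⁻¹) v = qf (pm σ) v := by
  rw [← pm_transpose, qf_transpose]

/-- operator of the lazy walk -/
noncomputable def Lp {K : ℕ} (a : Fin K → Perm X) : Matrix X X ℝ :=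
  (1 / 2 : ℝ) • 1 + (4 * (K : ℝ))⁻¹ • ∑ k, (pm (a k) + pm (a k)⁻¹)

theorem Lp_sym {K : ℕ} (a : Fin K → Perm X) : (Lp a)ᵀ = Lp a := by
  simp only [Lp, Matrix.transpose_add, Matrix.transpose_smul, Matrix.transpose_one,
    Matrix.transpose_sum, pm_transpose, inv_inv]
  congr 2
  exact Finset.sum_congr rfl fun k _ => add_comm _ _

theorem qf_Lp {K : ℕ} (a : Fin K → Perm X) (v : X → ℝ) :
    qf (Lp a) v = (1 / 2) * (v ⬝ᵥ v) + (2 * (K : ℝ))⁻¹ * ∑ k, qf (pm (a k)) v := by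
  rw [Lp, qf_add, qf_smul, qf_smul, qf_one, qf_sum]
  congr 1
  have : ∀ k, qf (pm (a k) + pm (a k)⁻¹) v = 2 * qf (pm (a k)) v := by
    intro k
    rw [qf_add, qf_pm_inv, two_mul]
  rw [Finset.sum_congr rfl fun k _ => this k, ← Finset.mul_sum, ← mul_assoc]
  congr 1
  rw [mul_inv, mul_inv]
  ring

theorem Lp_gap {K : ℕ} (hK : 1 ≤ K) (a : Fin K → Perm X) (v : X → ℝ) :
    ∑ k, (v ⬝ᵥ v - qf (pm (a k)) v) = 2 * K * (v ⬝ᵥ v - qf (Lp a) v) := by
  have hK' : (K : ℝ) ≠ 0 := by positivity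
  rw [qf_Lp, Finset.sum_sub_distrib, Finset.sum_const, Finset.card_univ, Fintype.card_fin,
    nsmul_eq_mul]
  field_simp
  ring

theorem Lp_psd {K : ℕ} (hK : 1 ≤ K) (a : Fin K → Perm X) : Psd (Lp a) := by
  refine ⟨Lp_sym a, fun v => ?_⟩
  have hK' : (0 : ℝ) < K := by positivity
  have h1 : ∑ k, qf (pm (a k)) v ≥ ∑ k : Fin K, -(v ⬝ᵥ v) :=
    Finset.sum_le_sum fun k _ => qf_pm_ge (a k) v
  rw [Finset.sum_const, Finset.card_univ, Fintype.card_fin, nsmul_eq_mul] at h1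
  rw [qf_Lp]
  have h2 : (2 * (K : ℝ))⁻¹ * (K * -(v ⬝ᵥ v)) ≤ (2 * (K : ℝ))⁻¹ * ∑ k, qf (pm (a k)) v :=
    mul_le_mul_of_nonneg_left h1 (by positivity)
  have h3 : (2 * (K : ℝ))⁻¹ * (K * -(v ⬝ᵥ v)) = -(1 / 2) * (v ⬝ᵥ v) := by
    field_simp
  linarith

theorem Lp_le {K : ℕ} (hK : 1 ≤ K) (a : Fin K → Perm X) (v : X → ℝ) :
    qf (Lp a) v ≤ v ⬝ᵥ v := by
  have h := Lp_gap hK a v
  have h1 : 0 ≤ ∑ k, (v ⬝ᵥ v - qf (pm (a k)) v) :=
    Finset.sum_nonneg fun k _ => sub_nonneg.2 (qf_pm_le (a k) v)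
  rw [h] at h1
  have hK' : (0 : ℝ) < 2 * K := by positivity
  have := (mul_nonneg_iff_of_pos_left hK').1 h1
  linarith

/-- operator of the simple walk -/
noncomputable def Wp {K : ℕ} (a : Fin K → Perm X) : Matrix X X ℝ :=
  (2 * (K : ℝ))⁻¹ • ∑ k, (pm (a k) + pm (a k)⁻¹)

theorem Wp_sym {K : ℕ} (a : Fin K → Perm X) : (Wp a)ᵀ = Wp a := by
  simp only [Wp, Matrix.transpose_add, Matrix.transpose_smul,
    Matrix.transpose_sum, pm_transpose, inv_inv]
  congr 1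
  exact Finset.sum_congr rfl fun k _ => add_comm _ _

theorem qf_Wp {K : ℕ} (a : Fin K → Perm X) (v : X → ℝ) :
    qf (Wp a) v = (K : ℝ)⁻¹ * ∑ k, qf (pm (a k)) v := by
  rw [Wp, qf_smul, qf_sum]
  have : ∀ k, qf (pm (a k) + pm (a k)⁻¹) v = 2 * qf (pm (a k)) v := by
    intro k
    rw [qf_add, qf_pm_inv, two_mul]
  rw [Finset.sum_congr rfl fun k _ => this k, ← Finset.mul_sum, ← mul_assoc]
  congr 1
  rw [mul_inv]
  ring

theorem Wp_gap {K : ℕ} (hK : 1 ≤ K) (a : Fin K → Perm X) (v : X → ℝ) :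
    ∑ k, (v ⬝ᵥ v - qf (pm (a k)) v) = K * (v ⬝ᵥ v - qf (Wp a) v) := by
  have hK' : (K : ℝ) ≠ 0 := by positivity
  rw [qf_Wp, Finset.sum_sub_distrib, Finset.sum_const, Finset.card_univ, Fintype.card_fin,
    nsmul_eq_mul]
  field_simp

theorem Wp_le {K : ℕ} (hK : 1 ≤ K) (a : Fin K → Perm X) (v : X → ℝ) :
    qf (Wp a) v ≤ v ⬝ᵥ v := by
  have h := Wp_gap hK a v
  have h1 : 0 ≤ ∑ k, (v ⬝ᵥ v - qf (pm (a k)) v) :=
    Finset.sum_nonneg fun k _ => sub_nonneg.2 (qf_pm_le (a k) v)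
  rw [h] at h1
  have hK' : (0 : ℝ) < K := by positivity
  have := (mul_nonneg_iff_of_pos_left hK').1 h1
  linarith

/-! ## Product action -/

/-- the permutation of pairs -/
def pp (σ τ : Perm X) : Perm (X × X) := Equiv.prodCongr σ τ

theorem pp_mul (σ τ σ' τ' : Perm X) : pp σ τ * pp σ' τ' = pp (σ * σ') (τ * τ') := rfl

theorem pp_inv (σ τ : Perm X) : (pp σ τ)⁻¹ = pp σ⁻¹ τ⁻¹ := rfl

theorem fx_pp (σ τ : Perm X) : fx (pp σ τ) = fx σ * fx τ := by
  simp only [fx]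
  rw [← Finset.card_product]
  congr 1
  ext ⟨x, y⟩
  simp [pp, Prod.ext_iff]

/-- tensor product of functions -/
def tens (e f : X → ℝ) : X × X → ℝ := fun p => e p.1 * f p.2

theorem tens_dot (e f e' f' : X → ℝ) :
    tens e f ⬝ᵥ tens e' f' = (e ⬝ᵥ e') * (f ⬝ᵥ f') := by
  simp only [dotProduct, tens]
  rw [Fintype.sum_prod_type, Finset.sum_mul_sum]
  exact Finset.sum_congr rfl fun x _ => Finset.sum_congr rfl fun y _ => by ring

theorem pm_tens (σ τ : Perm X) (e f : X → ℝ) :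
    pm (pp σ τ) *ᵥ tens e f = tens (pm σ *ᵥ e) (pm τ *ᵥ f) := by
  rw [pm_mulVec, pm_mulVec, pm_mulVec]
  rfl

theorem qf_tens (σ τ : Perm X) (e f : X → ℝ) :
    qf (pm (pp σ τ)) (tens e f) = qf (pm σ) e * qf (pm τ) f := by
  rw [qf, pm_tens, tens_dot]
  rfl

/-- lower bound of the trace of the word operator on pairs; `W` = simple walk of `z` on pairs,
`A = q(W)²` -/
theorem trace_pairs {K : ℕ} (hK : 1 ≤ K) (a : Fin K → Perm X) (Y0 Y1 : Perm X) (t N : ℕ)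
    (θ η c : ℝ) (h0 : 0 < θ) (hη0 : 0 ≤ η) (hη1 : η ≤ 1) (hc0 : 0 ≤ c) (q : Polynomial ℝ)
    (hq : ∀ l : ℝ, 1 - θ ≤ l → l ≤ 1 → c ≤ q.eval l ^ 2)
    (hs : Real.sqrt (8 * (K + 1) * η) + 2 * Real.sqrt (8 * η / θ) ≤ 1)
    (R0 : (1 - η) ^ t * Fintype.card X ≤ (Lp (Fin.cons Y0 a : Fin (K + 1) → Perm X) ^ t).trace)
    (R1 : (1 - η) ^ t * Fintype.card X ≤ (Lp (Fin.cons Y1 a : Fin (K + 1) → Perm X) ^ t).trace) :
    ((Lp (Fin.cons Y0 a : Fin (K + 1) → Perm X) ^ t).trace - (1 - η) ^ t * Fintype.card X) *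
      ((Lp (Fin.cons Y1 a : Fin (K + 1) → Perm X) ^ t).trace - (1 - η) ^ t * Fintype.card X) *
      c ^ (2 * N) *
      (1 - Real.sqrt (8 * (K + 1) * η) - 2 * Real.sqrt (8 * η / θ)) ^ (2 * N) ≤
      (((pm (pp Y0 Y1))ᵀ * (Polynomial.aeval (Wp (fun k => pp (a k) (a k))) q *
        Polynomial.aeval (Wp (fun k => pp (a k) (a k))) q) * pm (pp Y0 Y1) *
        (Polynomial.aeval (Wp (fun k => pp (a k) (a k))) q *
        Polynomial.aeval (Wp (fun k => pp (a k) (a k))) q)) ^ N).trace := by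
  have hK1 : 1 ≤ K + 1 := by omega
  have hKr : (0 : ℝ) < K := by positivity
  have hKr1 : (1 : ℝ) ≤ K := by exact_mod_cast hK
  obtain ⟨d0, e, e1, e2, e3⟩ := fam (Lp_psd hK1 (Fin.cons Y0 a : Fin (K + 1) → Perm X))
    (Lp_le hK1 _) hη0 hη1 t
  obtain ⟨d1, f, f1, f2, f3⟩ := fam (Lp_psd hK1 (Fin.cons Y1 a : Fin (K + 1) → Perm X))
    (Lp_le hK1 _) hη0 hη1 t
  set F : Fin d0 × Fin d1 → X × X → ℝ := fun p => tens (e p.1) (f p.2) with hF
  have F1 : ∀ p q, F p ⬝ᵥ F q = if p = q then 1 else 0 := by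
    rintro ⟨i, i'⟩ ⟨k, k'⟩
    simp only [hF]
    rw [tens_dot, e1, f1]
    by_cases h : i = k
    · by_cases h' : i' = k'
      · rw [if_pos h, if_pos h', if_pos (by rw [h, h']), mul_one]
      · rw [if_neg h', mul_zero, if_neg]
        intro h2
        exact h' (congrArg Prod.snd h2)
    · rw [if_neg h, zero_mul, if_neg]
      intro h2
      exact h (congrArg Prod.fst h2)
  -- energies
  have en : ∀ (Y : Perm X) (v : X → ℝ), v ⬝ᵥ v = 1 →
      1 - η ≤ qf (Lp (Fin.cons Y a : Fin (K + 1) → Perm X)) v →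
      (1 - qf (pm Y) v) + ∑ k, (1 - qf (pm (a k)) v) ≤ 2 * (K + 1) * η := by
    intro Y v hv hq
    have h := Lp_gap hK1 (Fin.cons Y a : Fin (K + 1) → Perm X) v
    rw [Fin.sum_univ_succ] at h
    simp only [Fin.cons_zero, Fin.cons_succ] at h
    rw [hv] at h
    push_cast at h
    rw [h]
    have : (0 : ℝ) ≤ 2 * (K + 1) := by positivity
    nlinarith
  have ab : ∀ s s' : ℝ, s ≤ 1 → s' ≤ 1 → 1 - s * s' ≤ (1 - s) + (1 - s') := by
    intro s s' h h'
    nlinarith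
  have ge0 : ∀ (σ : Perm X) (v : X → ℝ), v ⬝ᵥ v = 1 → 0 ≤ 1 - qf (pm σ) v := by
    intro σ v hv
    have := qf_pm_le σ v
    rw [hv] at this
    linarith
  have FP : ∀ p, 1 - 8 * η ≤ qf (Wp (fun k => pp (a k) (a k))) (F p) := by
    rintro ⟨i, i'⟩
    have ve : e i ⬝ᵥ e i = 1 := by rw [e1, if_pos rfl]
    have vf : f i' ⬝ᵥ f i' = 1 := by rw [f1, if_pos rfl]
    have hg := Wp_gap hK (fun k => pp (a k) (a k)) (F (i, i'))
    rw [F1, if_pos rfl] at hg
    have h1 := en Y0 (e i) ve (e2 i)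
    have h2 := en Y1 (f i') vf (f2 i')
    have h3 : ∑ k, (1 - qf (pm (pp (a k) (a k))) (F (i, i'))) ≤
        ∑ k, ((1 - qf (pm (a k)) (e i)) + (1 - qf (pm (a k)) (f i'))) := by
      refine Finset.sum_le_sum fun k _ => ?_
      simp only [hF]
      rw [qf_tens]
      exact ab _ _ (by have := ge0 (a k) _ ve; linarith) (by have := ge0 (a k) _ vf; linarith)
    rw [Finset.sum_add_distrib] at h3
    have h4 := ge0 Y0 _ ve
    have h5 := ge0 Y1 _ vf
    have h6 : (K : ℝ) * (1 - qf (Wp (fun k => pp (a k) (a k))) (F (i, i'))) ≤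
        K * (8 * η) := by
      rw [← hg]
      nlinarith
    have := le_of_mul_le_mul_left h6 (by positivity)
    linarith
  have FY : ∀ p, nrm (pm (pp Y0 Y1) *ᵥ F p - F p) ≤ Real.sqrt (8 * (K + 1) * η) := by
    rintro ⟨i, i'⟩
    have ve : e i ⬝ᵥ e i = 1 := by rw [e1, if_pos rfl]
    have vf : f i' ⬝ᵥ f i' = 1 := by rw [f1, if_pos rfl]
    apply Real.le_sqrt_of_sq_le
    rw [nrm_pm_sub, F1, if_pos rfl]
    have h1 := en Y0 (e i) ve (e2 i)
    have h2 := en Y1 (f i') vf (f2 i')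
    have h3 : 0 ≤ ∑ k, (1 - qf (pm (a k)) (e i)) := Finset.sum_nonneg fun k _ => ge0 _ _ ve
    have h4 : 0 ≤ ∑ k, (1 - qf (pm (a k)) (f i')) := Finset.sum_nonneg fun k _ => ge0 _ _ vf
    have h5 : 1 - qf (pm (pp Y0 Y1)) (F (i, i')) ≤
        (1 - qf (pm Y0) (e i)) + (1 - qf (pm Y1) (f i')) := by
      simp only [hF]
      rw [qf_tens]
      exact ab _ _ (by have := ge0 Y0 _ ve; linarith) (by have := ge0 Y1 _ vf; linarith)
    nlinarith
  have hYt : (pm (pp Y0 Y1))ᵀ * pm (pp Y0 Y1) = 1 := by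
    rw [pm_transpose, pm_mul, inv_mul_cancel, pm_one]
  have hYt' : pm (pp Y0 Y1) * (pm (pp Y0 Y1))ᵀ = 1 := by
    rw [pm_transpose, pm_mul, mul_inv_cancel, pm_one]
  have main := trace_lower (Wp_sym (fun k => pp (a k) (a k))) (Wp_le hK _) hYt hYt' F F1 h0
    (by positivity : (0 : ℝ) ≤ 8 * η) (Real.sqrt_nonneg (8 * (K + 1) * η)) hc0 q hq FP FY hs N
  refine le_trans ?_ main
  rw [Fintype.card_prod, Fintype.card_fin, Fintype.card_fin]
  push_cast
  have p1 : (0 : ℝ) ≤ c ^ (2 * N) := pow_nonneg hc0 _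
  have p2 : (0 : ℝ) ≤ (1 - Real.sqrt (8 * (K + 1) * η) - 2 * Real.sqrt (8 * η / θ)) ^ (2 * N) :=
    pow_nonneg (by linarith) _
  apply mul_le_mul_of_nonneg_right _ p2
  apply mul_le_mul_of_nonneg_right _ p1
  exact mul_le_mul (by linarith) (by linarith) (by linarith) (by positivity)

/-! ## Words -/

variable {G : Type} [Group G]

/-- `wd y T g = (y⁻¹ or y) g_{T-1} ⋯ y⁻¹ g_1 y g_0` (`y` after `g_0, g_2, …`, `y⁻¹` after
`g_1, g_3, …`) -/
def wd (y : G) : (T : ℕ) → (Fin T → G) → G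
  | 0, _ => 1
  | T + 1, g => (if T % 2 = 1 then y⁻¹ else y) * g (Fin.last T) * wd y T (fun i => g i.castSucc)

/-- the alternating product of matrices -/
def alt {I : Type} [Fintype I] [DecidableEq I] (Y A : Matrix I I ℝ) : ℕ → Matrix I I ℝ
  | 0 => 1
  | T + 1 => (if T % 2 = 1 then Yᵀ else Y) * A * alt Y A T

theorem alt_even {I : Type} [Fintype I] [DecidableEq I] (Y A : Matrix I I ℝ) (N : ℕ) :
    alt Y A (2 * N) = (Yᵀ * A * Y * A) ^ N := by
  induction N with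
  | zero => rfl
  | succ N ih =>
    have h1 : (2 * N + 1) % 2 = 1 := by omega
    have h2 : ¬ (2 * N) % 2 = 1 := by omega
    have : alt Y A (2 * (N + 1)) = (if (2 * N + 1) % 2 = 1 then Yᵀ else Y) * A *
        ((if (2 * N) % 2 = 1 then Yᵀ else Y) * A * alt Y A (2 * N)) := rfl
    rw [this, if_pos h1, if_neg h2, ih, pow_succ']
    simp only [Matrix.mul_assoc]

/-- expansion of the alternating product -/
theorem alt_expand [Fintype G] (φ : G →* Perm X) (κ : G → ℝ) (y0 y1 : G) (A : Matrix (X × X) (X × X) ℝ)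
    (hA : A = ∑ g, κ g • pm (pp (φ g) (φ g))) (T : ℕ) :
    alt (pm (pp (φ y0) (φ y1))) A T =
      ∑ g : Fin T → G, (∏ i, κ (g i)) • pm (pp (φ (wd y0 T g)) (φ (wd y1 T g))) := by
  induction T with
  | zero =>
    simp only [alt, Finset.univ_unique, Finset.sum_singleton, Finset.univ_eq_empty,
      Finset.prod_empty, one_smul, wd, map_one]
    exact (pm_one (X := X × X)).symm
  | succ T ih =>
    rw [alt, ih, hA]
    rw [← (Fin.snocEquiv (fun _ : Fin (T + 1) => G)).sum_comp, Fintype.sum_prod_type]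
    simp only [Finset.mul_sum, Finset.sum_mul, Fin.snocEquiv]
    rw [Finset.sum_comm]
    refine Finset.sum_congr rfl fun x _ => Finset.sum_congr rfl fun g _ => ?_
    simp only [Equiv.coe_fn_mk]
    rw [Fin.prod_univ_castSucc]
    simp only [Fin.snoc_castSucc, Fin.snoc_last, wd]
    split
    · simp only [pm_transpose, Matrix.mul_smul, Matrix.smul_mul, pm_mul, smul_smul, pp_inv,
        pp_mul, map_mul, map_inv]
    · simp only [Matrix.mul_smul, Matrix.smul_mul, pm_mul, smul_smul, pp_mul, map_mul]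

theorem trace_alt [Fintype G] (φ : G →* Perm X) (κ : G → ℝ) (y0 y1 : G) (A : Matrix (X × X) (X × X) ℝ)
    (hA : A = ∑ g, κ g • pm (pp (φ g) (φ g))) (N : ℕ) :
    (((pm (pp (φ y0) (φ y1)))ᵀ * A * pm (pp (φ y0) (φ y1)) * A) ^ N).trace =
      ∑ g : Fin (2 * N) → G, (∏ i, κ (g i)) *
        (fx (φ (wd y0 (2 * N) g)) * fx (φ (wd y1 (2 * N) g)) : ℝ) := by
  rw [← alt_even, alt_expand φ κ y0 y1 A hA, Matrix.trace_sum]
  refine Finset.sum_congr rfl fun g _ => ?_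
  rw [Matrix.trace_smul, trace_pm, fx_pp, smul_eq_mul]
  push_cast
  rfl

end Pool.Agent.Helper10.FS
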